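import Pool.Agent.Helper15.LP.Defs
import Pool.Agent.Helper15.LR.Ea

set_option autoImplicit false

open Finset
open scoped Classical
open Pool.Agent.Helper15.LR

namespace Pool.Agent.Helper15.LP

noncomputable section

/-- dyadic decomposition of an initial interval -/
lemma FRAC_dyad (n : ℕ) : ∀ k T : ℕ, T < 2 ^ n →
    (if k < T then 1 else 0 : ℕ) = ∑ h ∈ range n,
      (if (T / 2 ^ h) % 2 = 1 ∧ k / 2 ^ h = 2 * (T / 2 ^ (h + 1)) then 1 else 0) := by
  induction n with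
  | zero =>
    intro k T hT
    have : T = 0 := by simpa using hT
    simp [this]
  | succ n ih =>
    intro k T hT
    rw [sum_range_succ']
    have h1 : T / 2 < 2 ^ n := by
      rw [pow_succ] at hT
      omega
    have h2 := ih (k / 2) (T / 2) h1
    have h3 : ∀ x h : ℕ, x / 2 ^ (h + 1) = (x / 2) / 2 ^ h := by
      intro x h
      rw [Nat.div_div_eq_div_mul, pow_succ, mul_comm]
    have h4 : ∑ h ∈ range n, (if (T / 2 ^ (h + 1)) % 2 = 1 ∧
        k / 2 ^ (h + 1) = 2 * (T / 2 ^ (h + 1 + 1)) then 1 else 0) =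
        (if k / 2 < T / 2 then 1 else 0 : ℕ) := by
      rw [h2]
      refine sum_congr rfl fun h _ => ?_
      rw [h3 T h, h3 k h, h3 T (h + 1)]
    rw [h4]
    simp only [pow_zero, Nat.div_one, zero_add, pow_one]
    split_ifs <;> omega

/-- key of the time `t` at an end with sign `s` -/
def FRAC_key (s : Bool) (l t : ℕ) : ℕ := if s = true then t else l - 1 - t

lemma FRAC_key_lt (s : Bool) (l t : ℕ) (h : t + 1 ≤ l) : FRAC_key s l t < l := by
  unfold FRAC_key
  split_ifs <;> omega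

lemma FRAC_sum1 (N l : ℕ) (x : ℝ) (h : l ≤ N) :
    ∑ t : Fin N, (if (t : ℕ) + 1 ≤ l then x else 0) = (l : ℝ) * x := by
  rw [Fin.sum_univ_eq_sum_range (fun t => if t + 1 ≤ l then x else 0) N, ← sum_filter]
  have : (range N).filter (fun t => t + 1 ≤ l) = range l := by
    ext t
    simp only [mem_filter, mem_range]
    omega
  rw [this, sum_const, card_range, nsmul_eq_mul]

lemma FRAC_sum2 (N l T : ℕ) (s : Bool) (x : ℝ) (hx : 0 ≤ x) :
    ∑ t : Fin N, (if FRAC_key s l t < T then (if (t : ℕ) + 1 ≤ l then x else 0) else 0) ≤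
      (T : ℝ) * x := by
  rw [Fin.sum_univ_eq_sum_range
    (fun t => if FRAC_key s l t < T then (if t + 1 ≤ l then x else 0) else 0) N]
  have h1 : ∑ t ∈ range N, (if FRAC_key s l t < T then (if t + 1 ≤ l then x else 0) else 0) =
      ∑ t ∈ (range N).filter (fun t => FRAC_key s l t < T ∧ t + 1 ≤ l), x := by
    rw [sum_filter]
    refine sum_congr rfl fun t _ => ?_
    by_cases h : FRAC_key s l t < T
    · by_cases h' : t + 1 ≤ l
      · rw [if_pos h, if_pos h', if_pos ⟨h, h'⟩]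
      · rw [if_pos h, if_neg h', if_neg (fun h'' => h' h''.2)]
    · rw [if_neg h, if_neg (fun h'' => h h''.1)]
  rw [h1, sum_const, nsmul_eq_mul]
  apply mul_le_mul_of_nonneg_right _ hx
  have h2 : ((range N).filter (fun t => FRAC_key s l t < T ∧ t + 1 ≤ l)).card ≤ T := by
    calc _ ≤ (range T).card := by
          apply card_le_card_of_injOn (fun t => FRAC_key s l t)
          · intro t ht
            have ht' := (mem_filter.1 ht).2
            exact mem_coe.2 (mem_range.2 ht'.1)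
          · intro t ht t' ht' hh
            have h3 := (mem_filter.1 ht).2.2
            have h4 := (mem_filter.1 ht').2.2
            simp only [FRAC_key] at hh
            split_ifs at hh <;> omega
      _ = T := card_range T
  exact_mod_cast h2

/-- the constraints -/
def FRAC_R {V : Type} (F : Set (Sym2 V)) {m κ : ℕ} (σ : V → Fin m → Bool)
    (l : Fin m → Sym2 V → ℕ) (e : {e : Sym2 V // e ∈ F}) (o : Fin m × Fin (2 ^ κ))
    (c : V × Fin m × Fin (κ + 1) × Fin (2 ^ (κ + 1))) : Prop :=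
  c.1 ∈ e.1 ∧ o.1 = c.2.1 ∧
    FRAC_key (σ c.1 c.2.1) (l c.2.1 e.1) o.2 / 2 ^ (c.2.2.1 : ℕ) = (c.2.2.2 : ℕ)

/-- the weights -/
def FRAC_W {V : Type} (F : Set (Sym2 V)) {m κ : ℕ} (l : Fin m → Sym2 V → ℕ)
    (w : Fin m → Sym2 V → ℝ) (e : {e : Sym2 V // e ∈ F}) (o : Fin m × Fin (2 ^ κ)) : ℝ :=
  if (o.2 : ℕ) + 1 ≤ l o.1 e.1 then w o.1 e.1 else 0

lemma FRAC_cardR {V : Type} [Fintype V] (F : Set (Sym2 V)) {m κ : ℕ} (σ : V → Fin m → Bool)
    (l : Fin m → Sym2 V → ℕ) (e : {e : Sym2 V // e ∈ F}) (o : Fin m × Fin (2 ^ κ)) :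
    (univ.filter (fun c => FRAC_R F σ l e o c)).card ≤ 2 * (κ + 1) := by
  obtain ⟨e, he⟩ := e
  induction e using Sym2.ind with
  | _ a b =>
    have h1 : (({a, b} : Finset V) ×ˢ (univ : Finset (Fin (κ + 1)))).card ≤ 2 * (κ + 1) := by
      rw [card_product, card_univ, Fintype.card_fin]
      exact Nat.mul_le_mul_right _ card_le_two
    refine le_trans ?_ h1
    apply card_le_card_of_injOn (fun c => (c.1, c.2.2.1))
    · intro c hc
      have hc' := (mem_filter.1 hc).2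
      have h2 : c.1 = a ∨ c.1 = b := Sym2.mem_iff.1 hc'.1
      apply mem_coe.2
      rw [mem_product]
      refine ⟨?_, mem_univ _⟩
      rw [mem_insert, mem_singleton]
      exact h2
    · rintro ⟨c1, c2, c3, c4⟩ hc ⟨d1, d2, d3, d4⟩ hd hh
      have hc' := (mem_filter.1 hc).2
      have hd' := (mem_filter.1 hd).2
      obtain ⟨-, hc2, hc3⟩ := hc'
      obtain ⟨-, hd2, hd3⟩ := hd'
      simp only [Prod.mk.injEq] at hh
      obtain ⟨h5, h6⟩ := hh
      subst h5
      subst h6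
      simp only at hc2 hd2 hc3 hd3
      have h7 : c2 = d2 := hc2.symm.trans hd2
      subst h7
      have h8 : c4 = d4 := Fin.ext (hc3.symm.trans hd3)
      subst h8
      rfl

lemma FRAC_sumW {V : Type} (F : Set (Sym2 V)) {m κ : ℕ} (l : Fin m → Sym2 V → ℕ)
    (w : Fin m → Sym2 V → ℝ) (hl : ∀ i e, l i e ≤ 2 ^ κ)
    (hsum : ∀ e ∈ F, ∑ i, (l i e : ℝ) * w i e = 1) (e : {e : Sym2 V // e ∈ F}) :
    ∑ o : Fin m × Fin (2 ^ κ), FRAC_W F l w e o = 1 := by
  rw [Fintype.sum_prod_type, ← hsum e.1 e.2]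
  refine sum_congr rfl fun i _ => ?_
  exact FRAC_sum1 (2 ^ κ) (l i e.1) (w i e.1) (hl i e.1)

/-- sum over the edges at a vertex -/
lemma FRAC_nb {V : Type} [Fintype V] (F : Set (Sym2 V)) (u : V) (f : Sym2 V → ℝ) :
    ∑ e : {e : Sym2 V // e ∈ F}, (if u ∈ e.1 then f e.1 else 0) = ∑ v ∈ nb F u, f s(u, v) := by
  rw [← sum_filter]
  symm
  refine sum_bij (fun v hv => ⟨s(u, v), mem_nb.1 hv⟩) ?_ ?_ ?_ ?_
  · intro v hv
    rw [mem_filter]
    exact ⟨mem_univ _, Sym2.mem_mk_left u v⟩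
  · intro v hv v' hv' h
    have h1 : s(u, v) = s(u, v') := congrArg Subtype.val h
    exact Sym2.congr_right.1 h1
  · rintro ⟨e, he⟩ h
    have h1 : u ∈ e := (mem_filter.1 h).2
    obtain ⟨v, hv⟩ := Sym2.mem_iff_exists.1 h1
    subst hv
    exact ⟨v, mem_nb.2 he, rfl⟩
  · intro v hv
    rfl

lemma FRAC_count {V : Type} [Fintype V] (F : Set (Sym2 V)) {m κ : ℕ} (σ : V → Fin m → Bool)
    (l : Fin m → Sym2 V → ℕ) (w : Fin m → Sym2 V → ℝ) (hw : ∀ i e, 0 ≤ w i e)
    (hload : ∀ i u, ∑ v ∈ nb F u, w i s(u, v) ≤ 1)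
    (φ : {e : Sym2 V // e ∈ F} → Fin m × Fin (2 ^ κ))
    (hφ : ∀ c : V × Fin m × Fin (κ + 1) × Fin (2 ^ (κ + 1)),
      |((univ.filter (fun i => FRAC_R F σ l i (φ i) c)).card : ℝ) -
        ∑ i, ∑ o, (if FRAC_R F σ l i o c then FRAC_W F l w i o else 0)| ≤
          2 * ((2 * (κ + 1) : ℕ) : ℝ))
    (u : V) (i : Fin m) (T : ℕ) (hT : T ≤ 2 ^ κ) :
    ((univ.filter (fun e : {e : Sym2 V // e ∈ F} => u ∈ e.1 ∧ (φ e).1 = i ∧
      FRAC_key (σ u i) (l i e.1) (φ e).2 < T)).card : ℝ) ≤ T + 4 * ((κ : ℝ) + 1) ^ 2 := by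
  have hT' : T < 2 ^ (κ + 1) := by
    rw [pow_succ]
    have : 0 < 2 ^ κ := by positivity
    omega
  have hj : ∀ h : ℕ, 2 * (T / 2 ^ (h + 1)) < 2 ^ (κ + 1) := by
    intro h
    refine lt_of_le_of_lt ?_ hT'
    calc 2 * (T / 2 ^ (h + 1)) ≤ 2 ^ (h + 1) * (T / 2 ^ (h + 1)) := by
          apply Nat.mul_le_mul_right
          rw [pow_succ]
          have : 1 ≤ 2 ^ h := Nat.one_le_two_pow
          omega
      _ ≤ T := Nat.mul_div_le _ _
  -- the indicator of an initial interval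
  have hind : ∀ (e : {e : Sym2 V // e ∈ F}) (o : Fin m × Fin (2 ^ κ)) (x : ℝ),
      (if u ∈ e.1 ∧ o.1 = i ∧ FRAC_key (σ u i) (l i e.1) o.2 < T then x else 0) =
        ∑ h : Fin (κ + 1), (if (T / 2 ^ (h : ℕ)) % 2 = 1 then
          (if FRAC_R F σ l e o (u, i, h, ⟨2 * (T / 2 ^ ((h : ℕ) + 1)), hj h⟩) then x else 0)
            else 0) := by
    intro e o x
    by_cases h1 : u ∈ e.1 ∧ o.1 = i
    · have h2 := FRAC_dyad (κ + 1) (FRAC_key (σ u i) (l i e.1) o.2) T hT'
      have h3 : (if u ∈ e.1 ∧ o.1 = i ∧ FRAC_key (σ u i) (l i e.1) o.2 < T then x else 0) =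
          (((if FRAC_key (σ u i) (l i e.1) o.2 < T then 1 else 0 : ℕ) : ℕ) : ℝ) * x := by
        by_cases h4 : FRAC_key (σ u i) (l i e.1) o.2 < T
        · rw [if_pos ⟨h1.1, h1.2, h4⟩, if_pos h4]
          simp
        · rw [if_neg (fun h => h4 h.2.2), if_neg h4]
          simp
      rw [h3, h2, ← Fin.sum_univ_eq_sum_range (fun h => if (T / 2 ^ h) % 2 = 1 ∧
        FRAC_key (σ u i) (l i e.1) o.2 / 2 ^ h = 2 * (T / 2 ^ (h + 1)) then 1 else 0) (κ + 1),
        Nat.cast_sum, sum_mul]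
      refine sum_congr rfl fun h _ => ?_
      by_cases h5 : (T / 2 ^ (h : ℕ)) % 2 = 1
      · rw [if_pos h5]
        by_cases h6 : FRAC_key (σ u i) (l i e.1) o.2 / 2 ^ (h : ℕ) = 2 * (T / 2 ^ ((h : ℕ) + 1))
        · rw [if_pos ⟨h5, h6⟩, if_pos (show FRAC_R F σ l e o _ from ⟨h1.1, h1.2, h6⟩)]
          simp
        · rw [if_neg (fun h => h6 h.2), if_neg (fun h : FRAC_R F σ l e o _ => h6 h.2.2)]
          simp
      · rw [if_neg h5, if_neg (fun h => h5 h.1)]
        simp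
    · rw [if_neg (fun h => h1 ⟨h.1, h.2.1⟩)]
      symm
      apply sum_eq_zero
      intro h _
      rw [if_neg (fun h' : FRAC_R F σ l e o _ => h1 ⟨h'.1, h'.2.1⟩)]
      exact ite_self _
  -- the count as a sum of counts over dyadic intervals
  have hc : ((univ.filter (fun e : {e : Sym2 V // e ∈ F} => u ∈ e.1 ∧ (φ e).1 = i ∧
      FRAC_key (σ u i) (l i e.1) (φ e).2 < T)).card : ℝ) =
      ∑ h : Fin (κ + 1), (if (T / 2 ^ (h : ℕ)) % 2 = 1 then
        ((univ.filter (fun e => FRAC_R F σ l e (φ e)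
          (u, i, h, ⟨2 * (T / 2 ^ ((h : ℕ) + 1)), hj h⟩))).card : ℝ) else 0) := by
    rw [card_filter]
    push_cast
    rw [sum_congr rfl fun e _ => hind e (φ e) 1, sum_comm]
    refine sum_congr rfl fun h _ => ?_
    by_cases h5 : (T / 2 ^ (h : ℕ)) % 2 = 1
    · simp only [if_pos h5]
      rw [card_filter]
      push_cast
      rfl
    · simp only [if_neg h5]
      rw [sum_const_zero]
  rw [hc]
  have hle : ∀ h : Fin (κ + 1), (if (T / 2 ^ (h : ℕ)) % 2 = 1 then
        ((univ.filter (fun e => FRAC_R F σ l e (φ e)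
          (u, i, h, ⟨2 * (T / 2 ^ ((h : ℕ) + 1)), hj h⟩))).card : ℝ) else 0) ≤
      (if (T / 2 ^ (h : ℕ)) % 2 = 1 then (∑ e, ∑ o, (if FRAC_R F σ l e o
        (u, i, h, ⟨2 * (T / 2 ^ ((h : ℕ) + 1)), hj h⟩) then FRAC_W F l w e o else 0)) else 0) +
        4 * ((κ : ℝ) + 1) := by
    intro h
    have h1 := (abs_le.1 (hφ (u, i, h, ⟨2 * (T / 2 ^ ((h : ℕ) + 1)), hj h⟩))).2
    push_cast at h1
    split_ifs with h5
    · linarith
    · positivity
  refine (sum_le_sum fun h _ => hle h).trans ?_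
  rw [sum_add_distrib, sum_const, card_univ, Fintype.card_fin, nsmul_eq_mul]
  have hmain : ∑ h : Fin (κ + 1), (if (T / 2 ^ (h : ℕ)) % 2 = 1 then (∑ e, ∑ o,
      (if FRAC_R F σ l e o (u, i, h, ⟨2 * (T / 2 ^ ((h : ℕ) + 1)), hj h⟩) then
        FRAC_W F l w e o else 0)) else 0) ≤ T := by
    have h1 : ∑ h : Fin (κ + 1), (if (T / 2 ^ (h : ℕ)) % 2 = 1 then (∑ e, ∑ o,
        (if FRAC_R F σ l e o (u, i, h, ⟨2 * (T / 2 ^ ((h : ℕ) + 1)), hj h⟩) then
          FRAC_W F l w e o else 0)) else 0) =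
        ∑ e : {e : Sym2 V // e ∈ F}, ∑ o : Fin m × Fin (2 ^ κ),
          (if u ∈ e.1 ∧ o.1 = i ∧ FRAC_key (σ u i) (l i e.1) o.2 < T then
            FRAC_W F l w e o else 0) := by
      have h2 : ∀ e : {e : Sym2 V // e ∈ F}, ∀ o : Fin m × Fin (2 ^ κ), _ :=
        fun e o => hind e o (FRAC_W F l w e o)
      simp only [h2]
      have h3 : ∀ e : {e : Sym2 V // e ∈ F}, ∑ o : Fin m × Fin (2 ^ κ), ∑ h : Fin (κ + 1),
          (if (T / 2 ^ (h : ℕ)) % 2 = 1 then
          (if FRAC_R F σ l e o (u, i, h, ⟨2 * (T / 2 ^ ((h : ℕ) + 1)), hj h⟩) then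
            FRAC_W F l w e o else 0) else 0) =
          ∑ h : Fin (κ + 1), ∑ o : Fin m × Fin (2 ^ κ),
          (if (T / 2 ^ (h : ℕ)) % 2 = 1 then
          (if FRAC_R F σ l e o (u, i, h, ⟨2 * (T / 2 ^ ((h : ℕ) + 1)), hj h⟩) then
            FRAC_W F l w e o else 0) else 0) := fun e => sum_comm
      simp only [h3]
      rw [sum_comm]
      refine sum_congr rfl fun h _ => ?_
      by_cases h5 : (T / 2 ^ (h : ℕ)) % 2 = 1
      · simp only [if_pos h5]
      · simp only [if_neg h5, sum_const_zero]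
    rw [h1]
    have h4 : ∀ e : {e : Sym2 V // e ∈ F}, ∑ o : Fin m × Fin (2 ^ κ),
        (if u ∈ e.1 ∧ o.1 = i ∧ FRAC_key (σ u i) (l i e.1) o.2 < T then
          FRAC_W F l w e o else 0) ≤ (if u ∈ e.1 then (T : ℝ) * w i e.1 else 0) := by
      intro e
      by_cases h5 : u ∈ e.1
      · rw [if_pos h5, Fintype.sum_prod_type, sum_eq_single i]
        · refine le_trans (le_of_eq ?_) (FRAC_sum2 (2 ^ κ) (l i e.1) T (σ u i) (w i e.1) (hw _ _))
          refine sum_congr rfl fun t _ => ?_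
          by_cases h6 : FRAC_key (σ u i) (l i e.1) t < T
          · rw [if_pos ⟨h5, rfl, h6⟩, if_pos h6]
            rfl
          · rw [if_neg (fun h => h6 h.2.2), if_neg h6]
        · intro i' _ hi'
          apply sum_eq_zero
          intro t _
          rw [if_neg (fun h => hi' h.2.1)]
        · intro h
          exact absurd (mem_univ _) h
      · rw [if_neg h5, sum_eq_zero]
        intro o _
        rw [if_neg (fun h => h5 h.1)]
    refine (sum_le_sum fun e _ => h4 e).trans ?_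
    rw [FRAC_nb F u (fun e => (T : ℝ) * w i e), ← mul_sum]
    have h6 := hload i u
    have h7 : (0 : ℝ) ≤ T := Nat.cast_nonneg T
    calc (T : ℝ) * ∑ v ∈ nb F u, w i s(u, v) ≤ T * 1 := mul_le_mul_of_nonneg_left h6 h7
      _ = T := mul_one _
  push_cast
  nlinarith [hmain]

theorem lp_Frac (hR : RoundQ_stmt) (h2 : Level2_stmt) : Frac_stmt := by
  intro V _ F m κ σ L g l w hF hw hσ hsum hload hl hL
  rcases F.eq_empty_or_nonempty with hemp | ⟨e0, he0⟩
  · subst hemp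
    exact ⟨fun _ => 0, fun e he => absurd he (Set.notMem_empty _),
      fun u v w' h => absurd h (Set.notMem_empty _)⟩
  obtain ⟨φ, hφ1, hφ2⟩ := hR {e : Sym2 V // e ∈ F} (Fin m × Fin (2 ^ κ))
    (V × Fin m × Fin (κ + 1) × Fin (2 ^ (κ + 1))) (FRAC_R F σ l) (FRAC_W F l w) (2 * (κ + 1))
    (by omega)
    (by
      intro e o
      unfold FRAC_W
      split_ifs
      · exact hw _ _
      · exact le_rfl)
    (FRAC_sumW F l w hl hsum) (FRAC_cardR F σ l)
  have hcount := FRAC_count F σ l w hw hload φ hφ2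
  let lev : Sym2 V → Fin m := fun e => if h : e ∈ F then (φ ⟨e, h⟩).1 else (φ ⟨e0, he0⟩).1
  let tm : Sym2 V → ℕ := fun e => if h : e ∈ F then ((φ ⟨e, h⟩).2 : ℕ) else 0
  have hlev : ∀ e (h : e ∈ F), lev e = (φ ⟨e, h⟩).1 := fun e h => dif_pos h
  have htm : ∀ e (h : e ∈ F), tm e = ((φ ⟨e, h⟩).2 : ℕ) := fun e h => dif_pos h
  have hpos : ∀ e ∈ F, tm e + 1 ≤ l (lev e) e ∧ w (lev e) e ≠ 0 := by
    intro e he
    have h3 := hφ1 ⟨e, he⟩
    unfold FRAC_W at h3
    rw [hlev e he, htm e he]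
    split_ifs at h3 with h4
    · exact ⟨h4, h3.ne'⟩
    · exact absurd h3 (lt_irrefl _)
  have hcount' : ∀ (u : V) (i : Fin m) (T : ℕ), T ≤ 2 ^ κ →
      (univ.filter (fun v => s(u, v) ∈ F ∧ lev s(u, v) = i ∧
        FRAC_key (σ u i) (l i s(u, v)) (tm s(u, v)) < T)).card ≤ T + 4 * (κ + 1) ^ 2 := by
    intro u i T hT
    have h3 := hcount u i T hT
    have h4 : (univ.filter (fun v => s(u, v) ∈ F ∧ lev s(u, v) = i ∧
        FRAC_key (σ u i) (l i s(u, v)) (tm s(u, v)) < T)).card ≤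
        (univ.filter (fun e : {e : Sym2 V // e ∈ F} => u ∈ e.1 ∧ (φ e).1 = i ∧
          FRAC_key (σ u i) (l i e.1) (φ e).2 < T)).card := by
      apply card_le_card_of_injOn (fun v => if h : s(u, v) ∈ F then ⟨s(u, v), h⟩ else ⟨e0, he0⟩)
      · intro v hv
        obtain ⟨h5, h6, h7⟩ := (mem_filter.1 hv).2
        apply mem_coe.2
        rw [mem_filter]
        simp only [dif_pos h5]
        refine ⟨mem_univ _, Sym2.mem_mk_left u v, ?_, ?_⟩
        · rw [← hlev _ h5]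
          exact h6
        · rw [← htm _ h5]
          exact h7
      · intro v hv v' hv' hh
        have h5 := (mem_filter.1 hv).2.1
        have h6 := (mem_filter.1 hv').2.1
        simp only [dif_pos h5, dif_pos h6] at hh
        have h7 : s(u, v) = s(u, v') := congrArg Subtype.val hh
        exact Sym2.congr_right.1 h7
    have h5 : (((univ.filter (fun v => s(u, v) ∈ F ∧ lev s(u, v) = i ∧
        FRAC_key (σ u i) (l i s(u, v)) (tm s(u, v)) < T)).card : ℕ) : ℝ) ≤
        ((T + 4 * (κ + 1) ^ 2 : ℕ) : ℝ) := by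
      push_cast
      exact le_trans (by exact_mod_cast h4) h3
    exact_mod_cast h5
  apply LC_combine F L lev g
  intro i
  refine LC_mono (h2 V {e | e ∈ F ∧ lev e = i} (fun u => σ u i)
    (fun e => (L e).filter (fun x => g x = i))
    tm (fun e => 2 ^ κ - FRAC_key false (l i e) (tm e)) ?_ ?_) (fun _ h => h)
    (fun e _ c hc => (@mem_filter _ _ (_) _ _).2 ((@mem_filter _ _ (_) _ _).1 hc))
  · rintro u v ⟨h3, h4⟩
    have h5 := (hpos _ h3).2
    rw [h4] at h5
    exact hσ i u v h5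
  · rintro a b ⟨h3, h4⟩ ha hb
    have h5 := (hpos _ h3).1
    rw [h4] at h5
    have h6 := hl i s(a, b)
    have hA := hcount' a i (tm s(a, b) + 1) (by omega)
    have hkb : FRAC_key false (l i s(a, b)) (tm s(a, b)) = l i s(a, b) - 1 - tm s(a, b) := by
      simp [FRAC_key]
    have hB := hcount' b i (FRAC_key false (l i s(a, b)) (tm s(a, b)) + 1) (by
      rw [hkb]
      omega)
    have h7 : ((nb {e | e ∈ F ∧ lev e = i} a).filter
        (fun u => tm s(a, u) ≤ tm s(a, b))).card ≤ tm s(a, b) + 1 + 4 * (κ + 1) ^ 2 := by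
      refine le_trans (card_le_card ?_) hA
      intro v hv
      rw [mem_filter, mem_nb] at hv
      obtain ⟨⟨h8, h9⟩, h10⟩ := hv
      rw [mem_filter]
      refine ⟨mem_univ _, h8, h9, ?_⟩
      have : FRAC_key (σ a i) (l i s(a, v)) (tm s(a, v)) = tm s(a, v) := by
        have ha' : σ a i = true := ha
        simp [FRAC_key, ha']
      rw [this]
      omega
    have h8 : ((nb {e | e ∈ F ∧ lev e = i} b).filter
        (fun u => 2 ^ κ - FRAC_key false (l i s(a, b)) (tm s(a, b)) ≤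
          2 ^ κ - FRAC_key false (l i s(b, u)) (tm s(b, u)))).card ≤
        FRAC_key false (l i s(a, b)) (tm s(a, b)) + 1 + 4 * (κ + 1) ^ 2 := by
      refine le_trans (card_le_card ?_) hB
      intro v hv
      rw [mem_filter, mem_nb] at hv
      obtain ⟨⟨h8, h9⟩, h10⟩ := hv
      rw [mem_filter]
      refine ⟨mem_univ _, h8, h9, ?_⟩
      have hb' : σ b i = false := hb
      rw [hb']
      have h11 := (hpos _ h8).1
      rw [h9] at h11
      have h12 := hl i s(b, v)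
      have h13 := FRAC_key_lt false _ _ h11
      have h14 := FRAC_key_lt false _ _ h5
      omega
    have h9 := hL i s(a, b) h3
    have h10 : FRAC_key false (l i s(a, b)) (tm s(a, b)) + tm s(a, b) + 1 = l i s(a, b) := by
      rw [hkb]
      omega
    refine (Nat.add_le_add h7 h8).trans ?_
    have h11 : 8 * (κ + 1) ^ 2 = 4 * (κ + 1) ^ 2 + 4 * (κ + 1) ^ 2 := by ring
    omega

end

end Pool.Agent.Helper15.LP
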